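import Pool.Agent.K1H88.DP.Stm

/-! Integers of a number field in a box; pairs of integers in a slab. -/

set_option autoImplicit false

namespace Pool.Agent.K1H45.DP

open Pool.Agent.K1H88.DP NumberField Module

theorem coef_bound (F : Type) [Field F] [NumberField F] : ∃ C₁ : ℝ, 0 ≤ C₁ ∧
    ∀ (z : 𝓞 F) (R : ℝ), (∀ σ : F →+* ℂ, ‖σ z‖ ≤ R) →
      ∀ i, |(((RingOfIntegers.basis F).repr z i : ℤ) : ℝ)| ≤ C₁ * R := by
  classical
  set b := integralBasis F with hb
  refine ⟨∑ i, ∑ σ : F →ₐ[ℚ] ℂ, ‖σ (b.traceDual i)‖,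
    Finset.sum_nonneg fun i _ => Finset.sum_nonneg fun σ _ => norm_nonneg _, fun z R hz i => ?_⟩
  have hR : 0 ≤ R := (norm_nonneg _).trans (hz (Classical.arbitrary (F →+* ℂ)))
  have h1 : (((RingOfIntegers.basis F).repr z i : ℤ) : ℂ) =
      ∑ σ : F →ₐ[ℚ] ℂ, σ ((z : F) * b.traceDual i) := by
    rw [← trace_eq_sum_embeddings ℂ (K := ℚ) (L := F)]
    have h2 : b.repr (z : F) i = Algebra.trace ℚ F ((z : F) * b.traceDual i) := by
      have h3 := b.traceDual.traceDual_repr_apply (K := ℚ) (L := F) (z : F) i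
      rw [Module.Basis.traceDual_traceDual] at h3
      rw [h3]
      rfl
    rw [← h2, hb, integralBasis_repr_apply]
    simp
  have h2 : |(((RingOfIntegers.basis F).repr z i : ℤ) : ℝ)| =
      ‖(((RingOfIntegers.basis F).repr z i : ℤ) : ℂ)‖ := by
    rw [Complex.norm_intCast]
  rw [h2, h1]
  calc ‖∑ σ : F →ₐ[ℚ] ℂ, σ ((z : F) * b.traceDual i)‖
      ≤ ∑ σ : F →ₐ[ℚ] ℂ, ‖σ ((z : F) * b.traceDual i)‖ := norm_sum_le _ _
    _ ≤ ∑ σ : F →ₐ[ℚ] ℂ, ‖σ (b.traceDual i)‖ * R := by
        refine Finset.sum_le_sum fun σ _ => ?_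
        rw [map_mul, norm_mul, mul_comm]
        exact mul_le_mul_of_nonneg_left (hz σ.toRingHom) (norm_nonneg _)
    _ = (∑ σ : F →ₐ[ℚ] ℂ, ‖σ (b.traceDual i)‖) * R := (Finset.sum_mul _ _ _).symm
    _ ≤ _ := by
        refine mul_le_mul_of_nonneg_right ?_ hR
        exact Finset.single_le_sum (f := fun i => ∑ σ : F →ₐ[ℚ] ℂ, ‖σ (b.traceDual i)‖)
          (fun i _ => Finset.sum_nonneg fun σ _ => norm_nonneg _) (Finset.mem_univ i)

theorem t_BOX : S_BOX := by
  classical
  intro F _ _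
  obtain ⟨C₁, hC₁, hco⟩ := coef_bound F
  refine ⟨(2 * C₁ + 1) ^ finrank ℚ F, one_le_pow₀ (by linarith), fun R hR => ?_⟩
  set M : ℕ := ⌊C₁ * R⌋₊ with hM
  set P : Finset (Free.ChooseBasisIndex ℤ (𝓞 F) → ℤ) :=
    Fintype.piFinset fun _ => Finset.Icc (-(M : ℤ)) M with hP
  let h : (Free.ChooseBasisIndex ℤ (𝓞 F) → ℤ) → F := fun c =>
    (((RingOfIntegers.basis F).equivFun.symm c : 𝓞 F) : F)
  have hsub : {x : F | IsIntegral ℤ x ∧ ∀ σ : F →+* ℂ, ‖σ x‖ ≤ R} ⊆ ↑(P.image h) := by
    rintro x ⟨hx, hxR⟩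
    rw [Finset.coe_image]
    set z : 𝓞 F := ⟨x, hx⟩ with hz
    refine ⟨(RingOfIntegers.basis F).equivFun z, ?_, ?_⟩
    · rw [Finset.mem_coe, hP, Fintype.mem_piFinset]
      intro i
      have h1 := hco z R hxR i
      have h2 : ((RingOfIntegers.basis F).repr z i).natAbs ≤ M := by
        rw [hM]
        refine Nat.le_floor ?_
        rw [Nat.cast_natAbs, Int.cast_abs]
        exact h1
      rw [Finset.mem_Icc]
      have e : (RingOfIntegers.basis F).equivFun z i = (RingOfIntegers.basis F).repr z i := rfl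
      rw [e]
      omega
    · simp only [h]
      rw [LinearEquiv.symm_apply_apply]
      rfl
  have hfin := (P.image h).finite_toSet.subset hsub
  refine ⟨hfin, ?_⟩
  have h1 : {x : F | IsIntegral ℤ x ∧ ∀ σ : F →+* ℂ, ‖σ x‖ ≤ R}.ncard ≤ (2 * M + 1) ^ finrank ℚ F := by
    refine (Set.ncard_le_ncard hsub (P.image h).finite_toSet).trans ?_
    rw [Set.ncard_coe_finset]
    refine Finset.card_image_le.trans ?_
    rw [hP, Fintype.card_piFinset, Finset.prod_const, Int.card_Icc, Finset.card_univ,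
      ← finrank_eq_card_basis (integralBasis F)]
    apply le_of_eq
    congr 1
    omega
  have h2 : ((2 * M + 1 : ℕ) : ℝ) ≤ (2 * C₁ + 1) * R := by
    have h3 : (M : ℝ) ≤ C₁ * R := Nat.floor_le (by positivity)
    push_cast
    nlinarith
  calc ({x : F | IsIntegral ℤ x ∧ ∀ σ : F →+* ℂ, ‖σ x‖ ≤ R}.ncard : ℝ)
      ≤ (((2 * M + 1) ^ finrank ℚ F : ℕ) : ℝ) := by exact_mod_cast h1
    _ = ((2 * M + 1 : ℕ) : ℝ) ^ finrank ℚ F := by push_cast; ring
    _ ≤ ((2 * C₁ + 1) * R) ^ finrank ℚ F := pow_le_pow_left₀ (by positivity) h2 _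
    _ = _ := mul_pow _ _ _

/-- the elements of the box -/
def Bx (F : Type) [Field F] [NumberField F] (R : ℝ) : Set F :=
  {x : F | IsIntegral ℤ x ∧ ∀ σ : F →+* ℂ, ‖σ x‖ ≤ R}

theorem t_SLAB (hBox : S_BOX) : S_SLAB := by
  classical
  intro ι _ E _ _ B hB
  choose Ck hCk1 hCk using fun k => hBox (E k)
  set B' : ℝ := B + 2 + 8 * B ^ 2 with hB'
  have hB'1 : 1 ≤ B' := by rw [hB']; nlinarith
  have hBB' : B ≤ B' := by rw [hB']; nlinarith
  refine ⟨∏ k, (Ck k ^ 2 * B' ^ finrank ℚ (E k)), Finset.prod_pos fun k _ => ?_,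
    fun J R μ i₀ hμ hμB hR => ?_⟩
  · have := hCk1 k
    positivity
  have hR0 : ∀ k ∈ J, 0 < R k := fun k hk => by
    have h := hR k hk
    exact (mul_pos_iff_of_pos_left hμ).1 (by linarith)
  have hRμ : ∀ k ∈ J, 1 ≤ B' * (R k / μ) := by
    intro k hk
    have h := hR k hk
    have h1 : μ ^ 2 ≤ B' := by rw [hB']; nlinarith
    have h2 : 1 / μ ^ 2 ≤ R k / μ := by
      rw [div_le_div_iff₀ (by positivity) hμ]
      nlinarith
    have h3 : 1 ≤ B' * (1 / μ ^ 2) := by
      rw [mul_one_div, le_div_iff₀ (by positivity)]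
      linarith
    exact h3.trans (mul_le_mul_of_nonneg_left h2 (by linarith))
  -- the number of translates
  set m : ℕ := ⌈1 / μ ^ 2⌉₊ with hm
  have hm1 : 1 / μ ^ 2 ≤ m := Nat.le_ceil _
  have hm2 : (m : ℝ) < 1 / μ ^ 2 + 1 := Nat.ceil_lt_add_one (by positivity)
  have hm0 : 0 < m := Nat.ceil_pos.2 (by positivity)
  -- the two boxes
  let SX : ∀ k, Set (E k) := fun k => if k ∈ J then Bx (E k) (μ * R k) else {0}
  let SY : ∀ k, Set (E k) := fun k => Bx (E k) (if k ∈ J then B' * (R k / μ) else B)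
  have hSX : ∀ k, (SX k).Finite ∧ ((SX k).ncard : ℝ) ≤
      if k ∈ J then Ck k * (μ * R k) ^ finrank ℚ (E k) else 1 := by
    intro k
    by_cases hk : k ∈ J
    · simp only [SX, if_pos hk]
      exact hCk k (μ * R k) (hR k hk)
    · simp only [SX, if_neg hk]
      exact ⟨Set.finite_singleton 0, by simp⟩
  have hSY : ∀ k, (SY k).Finite ∧ ((SY k).ncard : ℝ) ≤
      Ck k * (if k ∈ J then B' * (R k / μ) else B) ^ finrank ℚ (E k) := by
    intro k
    refine hCk k _ ?_
    split_ifs with hk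
    · exact hRμ k hk
    · exact hB
  let FX : Finset (∀ k, E k) := Fintype.piFinset fun k => (hSX k).1.toFinset
  let FY : Finset (∀ k, E k) := Fintype.piFinset fun k => (hSY k).1.toFinset
  have hmemX : ∀ x, x ∈ FX ↔ ∀ k, x k ∈ SX k := by
    intro x; simp only [FX, Fintype.mem_piFinset, Set.Finite.mem_toFinset]
  have hmemY : ∀ y, y ∈ FY ↔ ∀ k, y k ∈ SY k := by
    intro y; simp only [FY, Fintype.mem_piFinset, Set.Finite.mem_toFinset]
  -- the translates are in the box
  have hkey : ∀ P ∈ Slab E J B R μ i₀, ∀ t < m, P.1 ∈ FX ∧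
      (P.2 + (2 * t : ℕ) • P.1) ∈ FY := by
    rintro ⟨x, y⟩ ⟨hint, hout, hin, -, -⟩ t ht
    refine ⟨(hmemX x).2 fun k => ?_, (hmemY _).2 fun k => ?_⟩
    · by_cases hk : k ∈ J
      · simp only [SX, if_pos hk]
        exact ⟨(hint k).1, fun σ => (hin k hk σ).1⟩
      · simp only [SX, if_neg hk]
        exact (hout k hk).1
    · refine ⟨(hint k).2.add ?_, fun σ => ?_⟩
      · rw [Pi.smul_apply, nsmul_eq_mul]
        exact (isIntegral_natCast (R := ℤ) (2 * t)).mul (hint k).1
      · rw [Pi.add_apply, Pi.smul_apply]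
        by_cases hk : k ∈ J
        · rw [if_pos hk, map_add, nsmul_eq_mul, map_mul, map_natCast]
          obtain ⟨h1, h2⟩ := hin k hk σ
          have h3 : ((2 * t : ℕ) : ℝ) ≤ 2 * (1 / μ ^ 2 + 1) := by
            have : (t : ℝ) ≤ m := by exact_mod_cast ht.le
            push_cast
            linarith
          have hRk := hR0 k hk
          have h5 : 2 * (1 / μ ^ 2 + 1) * (μ * R k) = (2 + 2 * μ ^ 2) * (R k / μ) := by
            field_simp
          have h6 : 0 ≤ R k / μ := by positivity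
          have h7 : 2 + 2 * μ ^ 2 ≤ 2 + 8 * B ^ 2 := by nlinarith
          calc ‖σ (y k) + ((2 * t : ℕ) : ℂ) * σ (x k)‖
              ≤ ‖σ (y k)‖ + ‖((2 * t : ℕ) : ℂ) * σ (x k)‖ := norm_add_le _ _
            _ = ‖σ (y k)‖ + ((2 * t : ℕ) : ℝ) * ‖σ (x k)‖ := by
                rw [norm_mul, Complex.norm_natCast]
            _ ≤ B * R k / μ + 2 * (1 / μ ^ 2 + 1) * (μ * R k) := by
                refine add_le_add h2 (mul_le_mul h3 h1 (norm_nonneg _) (by positivity))
            _ = B * (R k / μ) + (2 + 2 * μ ^ 2) * (R k / μ) := by rw [h5]; ring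
            _ ≤ B' * (R k / μ) := by
                rw [← add_mul]
                refine mul_le_mul_of_nonneg_right ?_ h6
                rw [hB']; linarith
        · rw [if_neg hk, (hout k hk).1, smul_zero, add_zero]
          exact (hout k hk).2 σ
  have hfin : (Slab E J B R μ i₀).Finite := by
    refine (FX ×ˢ FY).finite_toSet.subset fun P hP => ?_
    have h := hkey P hP 0 hm0
    rw [Finset.mem_coe, Finset.mem_product]
    refine ⟨h.1, ?_⟩
    have h2 := h.2
    rwa [mul_zero, zero_smul, add_zero] at h2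
  refine ⟨hfin, ?_⟩
  have hcard : (Slab E J B R μ i₀).ncard * m ≤ FX.card * FY.card := by
    have e1 : (Slab E J B R μ i₀).ncard * m = (hfin.toFinset ×ˢ Finset.range m).card := by
      rw [Finset.card_product, Finset.card_range, Set.ncard_eq_toFinset_card _ hfin]
    rw [e1, ← Finset.card_product]
    refine Finset.card_le_card_of_injOn (fun Q => (Q.1.1, Q.1.2 + (2 * Q.2 : ℕ) • Q.1.1)) ?_ ?_
    · rintro ⟨P, t⟩ h
      rw [Finset.mem_coe, Finset.mem_product, Set.Finite.mem_toFinset, Finset.mem_range] at h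
      rw [Finset.mem_coe, Finset.mem_product]
      exact hkey P h.1 t h.2
    · rintro ⟨⟨x, y⟩, t⟩ h ⟨⟨x', y'⟩, t'⟩ h' heq
      rw [Finset.mem_coe, Finset.mem_product, Set.Finite.mem_toFinset, Finset.mem_range] at h h'
      simp only [Prod.mk.injEq] at heq
      obtain ⟨rfl, h2⟩ := heq
      obtain ⟨⟨-, -, -, hne, hre⟩, -⟩ := h
      obtain ⟨⟨-, -, -, -, hre'⟩, -⟩ := h'
      simp only at hne hre hre'
      have h3' := congrFun h2 i₀.1
      rw [Pi.add_apply, Pi.add_apply, Pi.smul_apply, Pi.smul_apply, nsmul_eq_mul,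
        nsmul_eq_mul] at h3'
      have h3 := congrArg (fun z : E i₀.1 => i₀.2 z / i₀.2 (x i₀.1)) h3'
      simp only [map_add, map_mul, map_natCast] at h3
      rw [add_div, add_div, mul_div_cancel_right₀ _ hne, mul_div_cancel_right₀ _ hne] at h3
      have h4 := congrArg Complex.re h3
      simp only [Complex.add_re, Complex.natCast_re] at h4
      push_cast at h4
      rw [abs_le] at hre hre'
      have h5 : (t : ℝ) < t' + 1 := by linarith [hre.1, hre.2, hre'.1, hre'.2]
      have h6 : (t' : ℝ) < t + 1 := by linarith [hre.1, hre.2, hre'.1, hre'.2]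
      have h7 : t < t' + 1 := by exact_mod_cast h5
      have h8 : t' < t + 1 := by exact_mod_cast h6
      have h9 : t = t' := by omega
      subst h9
      have h10 : y = y' := add_right_cancel h2
      rw [h10]
  have hXc : (FX.card : ℝ) ≤ ∏ k, (if k ∈ J then Ck k * (μ * R k) ^ finrank ℚ (E k) else 1) := by
    simp only [FX]
    rw [Fintype.card_piFinset]
    push_cast
    refine Finset.prod_le_prod (fun k _ => Nat.cast_nonneg _) fun k _ => ?_
    have h := (hSX k).2
    rwa [Set.ncard_eq_toFinset_card _ (hSX k).1] at h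
  have hYc : (FY.card : ℝ) ≤
      ∏ k, (Ck k * (if k ∈ J then B' * (R k / μ) else B) ^ finrank ℚ (E k)) := by
    simp only [FY]
    rw [Fintype.card_piFinset]
    push_cast
    refine Finset.prod_le_prod (fun k _ => Nat.cast_nonneg _) fun k _ => ?_
    have h := (hSY k).2
    rwa [Set.ncard_eq_toFinset_card _ (hSY k).1] at h
  have hprod : (FX.card : ℝ) * FY.card ≤ (∏ k, (Ck k ^ 2 * B' ^ finrank ℚ (E k))) *
      ∏ k ∈ J, R k ^ (2 * finrank ℚ (E k)) := by
    have hJ : ∏ k ∈ J, R k ^ (2 * finrank ℚ (E k)) =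
        ∏ k, (if k ∈ J then R k ^ (2 * finrank ℚ (E k)) else 1) := by
      rw [Finset.prod_ite_mem, Finset.univ_inter]
    have h0 : (0 : ℝ) ≤ ∏ k, (if k ∈ J then Ck k * (μ * R k) ^ finrank ℚ (E k) else 1) :=
      (Nat.cast_nonneg _).trans hXc
    refine (mul_le_mul hXc hYc (Nat.cast_nonneg _) h0).trans ?_
    rw [hJ, ← Finset.prod_mul_distrib, ← Finset.prod_mul_distrib]
    refine Finset.prod_le_prod (fun k _ => ?_) fun k _ => ?_
    · have h1 := hCk1 k
      by_cases hk : k ∈ J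
      · have h2 := hR0 k hk
        rw [if_pos hk, if_pos hk]
        positivity
      · rw [if_neg hk, if_neg hk]
        positivity
    · have h1 := hCk1 k
      by_cases hk : k ∈ J
      · rw [if_pos hk, if_pos hk, if_pos hk]
        have h3 : (μ * R k) * (B' * (R k / μ)) = B' * R k ^ 2 := by
          field_simp
        have h4 : Ck k * (μ * R k) ^ finrank ℚ (E k) *
            (Ck k * (B' * (R k / μ)) ^ finrank ℚ (E k)) =
            Ck k ^ 2 * ((μ * R k) * (B' * (R k / μ))) ^ finrank ℚ (E k) := by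
          rw [mul_pow (μ * R k)]; ring
        rw [h4, h3, mul_pow, ← pow_mul]
        apply le_of_eq
        ring
      · rw [if_neg hk, if_neg hk, if_neg hk, one_mul, mul_one]
        have h2 : B ^ finrank ℚ (E k) ≤ B' ^ finrank ℚ (E k) :=
          pow_le_pow_left₀ (by linarith) hBB' _
        have h3 : Ck k ≤ Ck k ^ 2 := by nlinarith
        exact mul_le_mul h3 h2 (by positivity) (by positivity)
  have hcard' : ((Slab E J B R μ i₀).ncard : ℝ) * m ≤ FX.card * FY.card := by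
    exact_mod_cast hcard
  have hm3 : 1 ≤ (m : ℝ) * μ ^ 2 := by
    rwa [div_le_iff₀ (by positivity)] at hm1
  calc ((Slab E J B R μ i₀).ncard : ℝ) ≤ ((Slab E J B R μ i₀).ncard : ℝ) * (m * μ ^ 2) :=
        le_mul_of_one_le_right (Nat.cast_nonneg _) hm3
    _ = μ ^ 2 * (((Slab E J B R μ i₀).ncard : ℝ) * m) := by ring
    _ ≤ μ ^ 2 * ((∏ k, (Ck k ^ 2 * B' ^ finrank ℚ (E k))) *
        ∏ k ∈ J, R k ^ (2 * finrank ℚ (E k))) :=
        mul_le_mul_of_nonneg_left (hcard'.trans hprod) (by positivity)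
    _ = _ := by ring

end Pool.Agent.K1H45.DP
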